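import Pool.Agent.W2helper2.LL.BJStm
import Pool.Agent.W2helper46.LL.INV

/-! Piece MIN of project LL stage 2 (helper2): the first minimum of the lattice `R² g`. -/

set_option autoImplicit false

noncomputable section

namespace Pool.Agent.W2helper19.LL

open IsDedekindDomain Polynomial Matrix WithZero
open Pool.Agent.W2helper63.LL Pool.Agent.W2helper2.LL
open scoped Classical

theorem val_io {r : R} (hr : r ≠ 0) : (1 : WithZero (Multiplicative ℤ)) ≤ Valued.v (io r) := by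
  have h : Valued.v (io r) = exp (r.natDegree : ℤ) := by
    change Valued.v (algebraMap K Kinf (algebraMap R K r)) = _
    rw [Pool.Agent.W2helper46.LL.val_inf]
    exact RatFunc.inftyValuation.polynomial (ZMod 2) hr
  rw [h, ← exp_zero, exp_le_exp]
  exact Int.natCast_nonneg _

theorem nm_le (x : Fin 2 → Kinf) (j : Fin 2) : Valued.v (x j) ≤ nm x := by
  fin_cases j
  · exact le_max_left _ _
  · exact le_max_right _ _

theorem nm_mul_le (x : Fin 2 → Kinf) (k : Matrix (Fin 2) (Fin 2) Kinf)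
    (C : WithZero (Multiplicative ℤ)) (hk : ∀ i j, Valued.v (k i j) ≤ C) :
    nm (x ᵥ* k) ≤ nm x * C := by
  have h : ∀ j, Valued.v ((x ᵥ* k) j) ≤ nm x * C := by
    intro j
    have e : (x ᵥ* k) j = x 0 * k 0 j + x 1 * k 1 j := by
      simp [Matrix.vecMul, dotProduct, Fin.sum_univ_two]
    rw [e]
    refine (Valued.v.map_add _ _).trans (max_le ?_ ?_)
    · rw [map_mul]
      exact mul_le_mul' (nm_le x 0) (hk 0 j)
    · rw [map_mul]
      exact mul_le_mul' (nm_le x 1) (hk 1 j)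
  exact max_le (h 0) (h 1)

theorem nm_integral (x : Fin 2 → Kinf) (k : GL (Fin 2) Kinf) (hk : Integral k) :
    nm (x ᵥ* k.1) = nm x := by
  apply le_antisymm
  · have := nm_mul_le x k.1 1 fun i j => (hk i j).1
    rwa [mul_one] at this
  · have := nm_mul_le (x ᵥ* k.1) (k⁻¹).1 1 fun i j => (hk i j).2
    rw [mul_one, Matrix.vecMul_vecMul] at this
    have e : k.1 * (k⁻¹).1 = 1 := k.mul_inv
    rwa [e, Matrix.vecMul_one] at this

theorem vec_mul (ξ : Fin 2 → R) (g k : GL (Fin 2) Kinf) : vec ξ (g * k) = vec ξ g ᵥ* k.1 := by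
  unfold Pool.Agent.W2helper2.LL.vec
  rw [Matrix.vecMul_vecMul]
  rfl

theorem vec_left (ξ : Fin 2 → R) (ρ : GL (Fin 2) R) (g : GL (Fin 2) Kinf) :
    vec ξ (GeneralLinearGroup.map io ρ * g) = vec (ξ ᵥ* ρ.1) g := by
  unfold Pool.Agent.W2helper2.LL.vec
  have e : (GeneralLinearGroup.map io ρ * g).1 = ρ.1.map io * g.1 := rfl
  rw [e, ← Matrix.vecMul_vecMul]
  congr 1
  ext j
  simp [Matrix.vecMul, dotProduct, Fin.sum_univ_two]

theorem one_le_nm (ξ : Fin 2 → R) (h : ξ ≠ 0) : 1 ≤ nm (fun i => io (ξ i)) := by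
  by_cases h0 : ξ 0 = 0
  · have h1 : ξ 1 ≠ 0 := by
      intro h1
      apply h
      ext i
      fin_cases i
      · simp [h0]
      · simp [h1]
    exact le_trans (val_io h1) (nm_le (fun i => io (ξ i)) 1)
  · exact le_trans (val_io h0) (nm_le (fun i => io (ξ i)) 0)

theorem exists_bd (g : GL (Fin 2) Kinf) : ∃ c : ℤ, ∀ ξ : Fin 2 → R, ξ ≠ 0 → ∃ m : ℤ,
    nm (vec ξ g) = exp m ∧ c ≤ m := by
  -- a bound of the entries of the inverse
  set M : WithZero (Multiplicative ℤ) := max (max (Valued.v ((g⁻¹).1 0 0)) (Valued.v ((g⁻¹).1 0 1)))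
    (max (Valued.v ((g⁻¹).1 1 0)) (Valued.v ((g⁻¹).1 1 1))) with hM
  have hMe : ∀ i j, Valued.v ((g⁻¹).1 i j) ≤ M := by
    intro i j
    fin_cases i <;> fin_cases j
    · exact (le_max_left _ _).trans (le_max_left _ _)
    · exact (le_max_right _ _).trans (le_max_left _ _)
    · exact (le_max_left _ _).trans (le_max_right _ _)
    · exact (le_max_right _ _).trans (le_max_right _ _)
  have key : ∀ ξ : Fin 2 → R, ξ ≠ 0 → 1 ≤ nm (vec ξ g) * M := by
    intro ξ hξ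
    have h1 := nm_mul_le (vec ξ g) (g⁻¹).1 M hMe
    have e : vec ξ g ᵥ* (g⁻¹).1 = fun i => io (ξ i) := by
      unfold Pool.Agent.W2helper2.LL.vec
      rw [Matrix.vecMul_vecMul]
      have e2 : g.1 * (g⁻¹).1 = 1 := g.mul_inv
      rw [e2, Matrix.vecMul_one]
    rw [e] at h1
    exact (one_le_nm ξ hξ).trans h1
  refine ⟨-log M, fun ξ hξ => ?_⟩
  have h1 := key ξ hξ
  have hn0 : nm (vec ξ g) ≠ 0 := by
    intro h0
    rw [h0, zero_mul] at h1
    exact absurd h1 (not_le.2 zero_lt_one)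
  have hM0 : M ≠ 0 := by
    intro h0
    rw [h0, mul_zero] at h1
    exact absurd h1 (not_le.2 zero_lt_one)
  refine ⟨log (nm (vec ξ g)), (exp_log hn0).symm, ?_⟩
  rw [← exp_log hn0, ← exp_log hM0, ← exp_add, ← exp_zero, exp_le_exp] at h1
  linarith

theorem isMin_exists (g : GL (Fin 2) Kinf) : ∃ m, IsMin g m := by
  obtain ⟨c, hc⟩ := exists_bd g
  have hne : (![1, 0] : Fin 2 → R) ≠ 0 := by
    intro h
    have := congrFun h 0
    simp at this
  obtain ⟨lb, ⟨ξ, hξ, hlb⟩, hmin⟩ := Int.exists_least_of_bdd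
    (P := fun m : ℤ => ∃ ξ : Fin 2 → R, ξ ≠ 0 ∧ nm (vec ξ g) = exp m)
    ⟨c, by
      rintro z ⟨ξ, hξ, hz⟩
      obtain ⟨m, h1, h2⟩ := hc ξ hξ
      have : z = m := by
        have := hz.symm.trans h1
        exact exp_injective this
      rw [this]
      exact h2⟩
    (by
      obtain ⟨m, h1, _⟩ := hc _ hne
      exact ⟨m, _, hne, h1⟩)
  refine ⟨lb, ⟨ξ, hξ, hlb⟩, fun η hη => ?_⟩
  obtain ⟨m, h1, _⟩ := hc η hη
  rw [h1, exp_le_exp]
  exact hmin m ⟨η, hη, h1⟩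

theorem isMin_of (g g' : GL (Fin 2) Kinf) (m j : ℤ) (φ ψ : (Fin 2 → R) → Fin 2 → R)
    (h0 : ∀ ξ, ξ ≠ 0 → φ ξ ≠ 0) (h0' : ∀ ξ, ξ ≠ 0 → ψ ξ ≠ 0)
    (h : ∀ ξ, nm (vec (φ ξ) g') = nm (vec ξ g) * exp j)
    (h' : ∀ ξ, nm (vec ξ g') = nm (vec (ψ ξ) g) * exp j) (hm : IsMin g m) : IsMin g' (m + j) := by
  obtain ⟨⟨ξ, hξ, h1⟩, h2⟩ := hm
  refine ⟨⟨φ ξ, h0 ξ hξ, ?_⟩, fun η hη => ?_⟩
  · rw [h ξ, h1, exp_add]
  · rw [h' η, exp_add]
    exact mul_le_mul_left (h2 (ψ η) (h0' η hη)) _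

theorem mn : S_MIN := by
  refine ⟨isMin_exists, ?_, ?_, ?_, ?_⟩
  · intro g m m' h h'
    obtain ⟨⟨ξ, hξ, h1⟩, h2⟩ := h
    obtain ⟨⟨ξ', hξ', h1'⟩, h2'⟩ := h'
    have a := h2 ξ' hξ'
    have b := h2' ξ hξ
    rw [h1', exp_le_exp] at a
    rw [h1, exp_le_exp] at b
    exact le_antisymm a b
  · intro ρ g m h
    have e1 : ρ.1 * (ρ⁻¹).1 = 1 := ρ.mul_inv
    have e2 : (ρ⁻¹).1 * ρ.1 = 1 := ρ.inv_mul
    have := isMin_of g (GeneralLinearGroup.map io ρ * g) m 0 (fun ξ => ξ ᵥ* (ρ⁻¹).1)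
      (fun ξ => ξ ᵥ* ρ.1) (fun ξ hξ h0 => hξ ?_) (fun ξ hξ h0 => hξ ?_) (fun ξ => ?_)
      (fun ξ => ?_) h
    · rwa [add_zero] at this
    · have h3 : (ξ ᵥ* (ρ⁻¹).1) ᵥ* ρ.1 = 0 := by
        rw [show ξ ᵥ* (ρ⁻¹).1 = 0 from h0, Matrix.zero_vecMul]
      rwa [Matrix.vecMul_vecMul, e2, Matrix.vecMul_one] at h3
    · have h3 : (ξ ᵥ* ρ.1) ᵥ* (ρ⁻¹).1 = 0 := by
        rw [show ξ ᵥ* ρ.1 = 0 from h0, Matrix.zero_vecMul]
      rwa [Matrix.vecMul_vecMul, e1, Matrix.vecMul_one] at h3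
    · rw [vec_left, Matrix.vecMul_vecMul, e2, Matrix.vecMul_one, exp_zero, mul_one]
    · rw [vec_left, exp_zero, mul_one]
  · intro g k m h hk
    have := isMin_of g (g * k) m 0 id id (fun _ h => h) (fun _ h => h)
      (fun ξ => by rw [id, vec_mul, nm_integral _ _ hk, exp_zero, mul_one])
      (fun ξ => by rw [id, vec_mul, nm_integral _ _ hk, exp_zero, mul_one]) h
    rwa [add_zero] at this
  · intro g z j m hz h
    have key : ∀ ξ, nm (vec ξ (g * bor z 0 z)) = nm (vec ξ g) * exp j := by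
      intro ξ
      have e : vec ξ (g * bor z 0 z) = fun i => vec ξ g i * (z : Kinf) := by
        rw [vec_mul]
        ext i
        fin_cases i <;> simp [Matrix.vecMul, dotProduct, Fin.sum_univ_two, bor]
      rw [e]
      unfold nm
      rw [map_mul, map_mul, hz, max_mul_mul_right]
    exact isMin_of g (g * bor z 0 z) m j id id (fun _ h => h) (fun _ h => h) key key h

end Pool.Agent.W2helper19.LL
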